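import Pool.Agent.Helper87.VM.Lib2

/-!
Module PAR: polynomial parametrization of the family of curves.
-/

set_option autoImplicit false

namespace Pool.Agent.Helper87.VM

open MvPolynomial Pool.Agent.Helper48.VMRT

/-- A polynomial vanishing for `x i = 0` is divisible by `X i`. -/
theorem par_div {κ : Type} (i : κ) (p : MvPolynomial κ ℂ)
    (h : ∀ x : κ → ℂ, x i = 0 → eval x p = 0) : ∃ g, p = X i * g := by
  classical
  have key : ∀ q : MvPolynomial κ ℂ,
      (X i : MvPolynomial κ ℂ) ∣ q - aeval (fun j => if j = i then 0 else X j) q := by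
    intro q
    induction q using MvPolynomial.induction_on with
    | C a => simp [MvPolynomial.algebraMap_eq]
    | add p q hp hq =>
      rw [map_add]
      have h1 := dvd_add hp hq
      have h2 : p + q - (aeval (fun j => if j = i then 0 else X j) p +
          aeval (fun j => if j = i then 0 else X j) q) =
          p - aeval (fun j => if j = i then 0 else X j) p +
          (q - aeval (fun j => if j = i then (0 : MvPolynomial κ ℂ) else X j) q) := by ring
      rw [h2]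
      exact h1
    | mul_X p j hp =>
      rw [map_mul, aeval_X]
      have h2 : p * X j - aeval (fun j => if j = i then 0 else X j) p *
          (if j = i then 0 else X j) =
          (p - aeval (fun j => if j = i then 0 else X j) p) * X j +
          aeval (fun j => if j = i then 0 else X j) p * (X j - (if j = i then 0 else X j)) := by
        ring
      rw [h2]
      refine dvd_add (Dvd.dvd.mul_right hp _) (Dvd.dvd.mul_left ?_ _)
      by_cases hj : j = i
      · rw [if_pos hj, hj, sub_zero]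
      · rw [if_neg hj, sub_self]
        exact dvd_zero _
  have h0 : aeval (fun j => if j = i then (0 : MvPolynomial κ ℂ) else X j) p = 0 := by
    apply MvPolynomial.funext
    intro x
    rw [eval_aeval, map_zero]
    exact h _ (by simp [ev])
  have h1 := key p
  rw [h0, sub_zero] at h1
  exact h1

/-- Division of `F (S, S u + R z) - R ^ a F (0, z)` by `S`. -/
theorem par_G {w a : ℕ} (F : MvPolynomial (Option (Fin w)) ℂ) (hF : HomE a F) :
    ∃ G : MvPolynomial (Fin 2 ⊕ (Fin w ⊕ Fin w)) ℂ, ∀ (S R : ℂ) (u z : Fin w → ℂ),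
      eval (ov S (S • u + R • z)) F =
        R ^ a * eval (ov 0 z) F + S * eval (Sum.elim ![S, R] (Sum.elim u z)) G := by
  let f₁ : Option (Fin w) → MvPolynomial (Fin 2 ⊕ (Fin w ⊕ Fin w)) ℂ := fun o =>
    Option.rec (X (Sum.inl 0)) (fun i => X (Sum.inl 0) * X (Sum.inr (Sum.inl i)) +
      X (Sum.inl 1) * X (Sum.inr (Sum.inr i))) o
  let f₂ : Option (Fin w) → MvPolynomial (Fin 2 ⊕ (Fin w ⊕ Fin w)) ℂ := fun o =>
    Option.rec 0 (fun i => X (Sum.inr (Sum.inr i))) o
  have h₁ : ∀ x : Fin 2 ⊕ (Fin w ⊕ Fin w) → ℂ, ev f₁ x =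
      ov (x (Sum.inl 0)) (x (Sum.inl 0) • (fun i => x (Sum.inr (Sum.inl i))) +
        x (Sum.inl 1) • (fun i => x (Sum.inr (Sum.inr i)))) := by
    intro x
    funext o
    cases o with
    | none => simp [ev, f₁]
    | some i => simp [ev, f₁]
  have h₂ : ∀ x : Fin 2 ⊕ (Fin w ⊕ Fin w) → ℂ, ev f₂ x =
      ov 0 (fun i => x (Sum.inr (Sum.inr i))) := by
    intro x
    funext o
    cases o with
    | none => simp [ev, f₂]
    | some i => simp [ev, f₂]
  obtain ⟨G, hG⟩ := par_div (Sum.inl 0) (aeval f₁ F - X (Sum.inl 1) ^ a * aeval f₂ F) (by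
    intro x hx
    rw [map_sub, map_mul, map_pow, eval_X, eval_aeval, eval_aeval, h₁, h₂, hx, zero_smul, zero_add]
    have h3 : ov 0 (x (Sum.inl 1) • fun i => x (Sum.inr (Sum.inr i))) =
        x (Sum.inl 1) • ov 0 (fun i => x (Sum.inr (Sum.inr i))) := by
      rw [← ov_smul, mul_zero]
    rw [h3, hF, sub_self])
  refine ⟨G, fun S R u z => ?_⟩
  have h4 := congrArg (eval (Sum.elim ![S, R] (Sum.elim u z) : Fin 2 ⊕ (Fin w ⊕ Fin w) → ℂ)) hG
  rw [map_sub, map_mul, map_pow, map_mul, eval_X, eval_X, eval_aeval, eval_aeval, h₁, h₂] at h4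
  simp only [Sum.elim_inl, Sum.elim_inr, Matrix.cons_val_zero, Matrix.cons_val_one] at h4
  rw [← h4]
  ring

/-- The value of a homogeneous polynomial in two variables. -/
theorem par_two {d : ℕ} {p : MvPolynomial (Fin 2) ℂ} (hp : p.IsHomogeneous d) (s t : ℂ) :
    eval ![s, t] p = ∑ j : Fin (d + 1),
      coeff (Finsupp.single 0 (d - (j : ℕ)) + Finsupp.single 1 (j : ℕ)) p *
        s ^ (d - (j : ℕ)) * t ^ (j : ℕ) := by
  classical
  let m : Fin (d + 1) → (Fin 2 →₀ ℕ) := fun j =>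
    Finsupp.single 0 (d - (j : ℕ)) + Finsupp.single 1 (j : ℕ)
  have hm0 : ∀ j, m j 0 = d - (j : ℕ) := by
    intro j
    simp [m]
  have hm1 : ∀ j, m j 1 = (j : ℕ) := by
    intro j
    simp [m]
  have hinj : Function.Injective m := by
    intro j j' h
    have := DFunLike.congr_fun h 1
    rw [hm1, hm1] at this
    exact Fin.ext this
  have hsub : p.support ⊆ Finset.univ.image m := by
    intro μ hμ
    have hdeg : μ.degree = d := by
      have h1 := hp (mem_support_iff.1 hμ)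
      rw [Finsupp.degree_eq_weight_one]
      exact h1
    have h2 : μ 0 + μ 1 = d := by
      rw [← hdeg, Finsupp.degree_eq_sum, Fin.sum_univ_two]
    rw [Finset.mem_image]
    refine ⟨⟨μ 1, by omega⟩, Finset.mem_univ _, ?_⟩
    apply Finsupp.ext
    intro i
    fin_cases i
    · change m _ 0 = μ 0
      rw [hm0]
      change d - μ 1 = μ 0
      omega
    · change m _ 1 = μ 1
      rw [hm1]
  rw [eval_eq', Finset.sum_subset hsub (fun μ _ hμ => by
    rw [notMem_support_iff.1 hμ, zero_mul]), Finset.sum_image (fun j _ j' _ h => hinj h)]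
  refine Finset.sum_congr rfl fun j _ => ?_
  rw [Fin.prod_univ_two, hm0, hm1]
  simp only [Matrix.cons_val_zero, Matrix.cons_val_one]
  rw [mul_assoc]

/-- Extraction of the coefficients with respect to two variables. -/
theorem par_ext {τ : Type} (Q : MvPolynomial (Fin 2 ⊕ τ) ℂ) (d : ℕ) :
    ∃ Ψ : Fin (d + 1) → MvPolynomial τ ℂ, ∀ x : τ → ℂ,
      (∀ c s t : ℂ, eval (Sum.elim ![c * s, c * t] x) Q = c ^ d * eval (Sum.elim ![s, t] x) Q) →
      ∀ s t : ℂ, eval (Sum.elim ![s, t] x) Q =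
        ∑ j : Fin (d + 1), eval x (Ψ j) * s ^ (d - (j : ℕ)) * t ^ (j : ℕ) := by
  classical
  let Q' : MvPolynomial (Fin 2) (MvPolynomial τ ℂ) := sumRingEquiv ℂ (Fin 2) τ Q
  have hQ : ∀ (y : Fin 2 → ℂ) (x : τ → ℂ),
      eval (Sum.elim y x) Q = eval y (map (eval x) Q') := by
    intro y x
    have h : eval (Sum.elim y x) = ((eval y).comp (map (eval x))).comp
        ((sumRingEquiv ℂ (Fin 2) τ : MvPolynomial (Fin 2 ⊕ τ) ℂ ≃+*
          MvPolynomial (Fin 2) (MvPolynomial τ ℂ)) :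
          MvPolynomial (Fin 2 ⊕ τ) ℂ →+* MvPolynomial (Fin 2) (MvPolynomial τ ℂ)) := by
      apply MvPolynomial.ringHom_ext
      · intro r
        simp [sumRingEquiv_C]
      · rintro (i | i)
        · simp [sumRingEquiv_X_inl]
        · simp [sumRingEquiv_X_inr]
    rw [h]
    rfl
  refine ⟨fun j => coeff (Finsupp.single 0 (d - (j : ℕ)) + Finsupp.single 1 (j : ℕ)) Q',
    fun x hx s t => ?_⟩
  have hh : (map (eval x) Q').IsHomogeneous d := by
    apply isHomogeneous_of_homE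
    intro c y
    have h1 := hx c (y 0) (y 1)
    rw [hQ, hQ] at h1
    have e1 : (![c * y 0, c * y 1] : Fin 2 → ℂ) = c • y := by
      funext i; fin_cases i <;> rfl
    have e2 : (![y 0, y 1] : Fin 2 → ℂ) = y := by
      funext i; fin_cases i <;> rfl
    rw [e1, e2] at h1
    exact h1
  rw [hQ, par_two hh]
  refine Finset.sum_congr rfl fun j _ => ?_
  rw [coeff_map]

theorem par_can {κ : Type} {p q : MvPolynomial κ ℂ} (hp : p ≠ 0)
    (h : ∀ x, eval x p ≠ 0 → eval x q = 0) (x : κ → ℂ) : eval x q = 0 := by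
  have h1 : p * q = 0 := by
    apply MvPolynomial.funext
    intro y
    rw [map_mul, map_zero]
    by_cases hy : eval y p = 0
    · rw [hy, zero_mul]
    · rw [h y hy, mul_zero]
  rcases mul_eq_zero.1 h1 with h2 | h2
  · exact absurd h2 hp
  · rw [h2, map_zero]

/-- Homogeneity of a quotient. -/
theorem par_hom {τ : Type} (Q : MvPolynomial (Fin 2 ⊕ τ) ℂ) (d k m : ℕ) (x : τ → ℂ)
    (σ₀ σ₁ : ℂ) (hσ : σ₀ ≠ 0 ∨ σ₁ ≠ 0) (hm : m = d + k)
    (h : ∀ c s t : ℂ, (c * s * σ₀ + c * t * σ₁) ^ k * eval (Sum.elim ![c * s, c * t] x) Q =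
      c ^ m * ((s * σ₀ + t * σ₁) ^ k * eval (Sum.elim ![s, t] x) Q)) (c s t : ℂ) :
    eval (Sum.elim ![c * s, c * t] x) Q = c ^ d * eval (Sum.elim ![s, t] x) Q := by
  let f₁ : Fin 2 ⊕ τ → MvPolynomial (Fin 3) ℂ := Sum.elim ![X 0 * X 1, X 0 * X 2] (fun i => C (x i))
  let f₂ : Fin 2 ⊕ τ → MvPolynomial (Fin 3) ℂ := Sum.elim ![X 1, X 2] (fun i => C (x i))
  have h₁ : ∀ y : Fin 3 → ℂ, ev f₁ y = Sum.elim ![y 0 * y 1, y 0 * y 2] x := by
    intro y
    funext o
    rcases o with i | i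
    · fin_cases i <;> simp [ev, f₁]
    · simp [ev, f₁]
  have h₂ : ∀ y : Fin 3 → ℂ, ev f₂ y = Sum.elim ![y 1, y 2] x := by
    intro y
    funext o
    rcases o with i | i
    · fin_cases i <;> simp [ev, f₂]
    · simp [ev, f₂]
  let p : MvPolynomial (Fin 3) ℂ := X 0 * (C σ₀ * X 1 + C σ₁ * X 2)
  have hpe : ∀ y : Fin 3 → ℂ, eval y p = y 0 * (σ₀ * y 1 + σ₁ * y 2) := by
    intro y
    simp [p]
  have hp : p ≠ 0 := by
    intro h0
    rcases hσ with h1 | h1
    · have h2 := hpe ![1, 1, 0]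
      rw [h0] at h2
      simp at h2
      exact h1 h2.symm
    · have h2 := hpe ![1, 0, 1]
      rw [h0] at h2
      simp at h2
      exact h1 h2.symm
  have key := par_can (q := aeval f₁ Q - X 0 ^ d * aeval f₂ Q) hp (by
    intro y hy
    rw [hpe] at hy
    obtain ⟨hy0, hy1⟩ := mul_ne_zero_iff.1 hy
    rw [map_sub, map_mul, map_pow, eval_X, eval_aeval, eval_aeval, h₁, h₂]
    have h3 := h (y 0) (y 1) (y 2)
    have h4 : (y 0 * y 1 * σ₀ + y 0 * y 2 * σ₁) = y 0 * (σ₀ * y 1 + σ₁ * y 2) := by ring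
    have h5 : y 1 * σ₀ + y 2 * σ₁ = σ₀ * y 1 + σ₁ * y 2 := by ring
    rw [h4, h5, hm, mul_pow] at h3
    have h6 : y 0 ^ k * (σ₀ * y 1 + σ₁ * y 2) ^ k ≠ 0 :=
      mul_ne_zero (pow_ne_zero _ hy0) (pow_ne_zero _ hy1)
    apply mul_left_cancel₀ h6
    rw [mul_sub, h3, mul_zero, pow_add]
    ring) ![c, s, t]
  rw [map_sub, map_mul, map_pow, eval_X, eval_aeval, eval_aeval, h₁, h₂, sub_eq_zero] at key
  exact key

theorem st_PAR : ST_PAR := by
  intro D hD
  classical
  choose G hG using fun j => par_G (D.F j) (hD.fd.hom j)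
  -- the polynomials
  let S : MvPolynomial (Fin 2 ⊕ (D.κB ⊕ (Fin D.w ⊕ (Fin 4 ⊕ Fin D.w)))) ℂ :=
    X (Sum.inl 0) * X (Sum.inr (Sum.inr (Sum.inr (Sum.inl 0)))) +
      X (Sum.inl 1) * X (Sum.inr (Sum.inr (Sum.inr (Sum.inl 1))))
  let R : MvPolynomial (Fin 2 ⊕ (D.κB ⊕ (Fin D.w ⊕ (Fin 4 ⊕ Fin D.w)))) ℂ :=
    X (Sum.inl 0) * X (Sum.inr (Sum.inr (Sum.inr (Sum.inl 2)))) +
      X (Sum.inl 1) * X (Sum.inr (Sum.inr (Sum.inr (Sum.inl 3))))
  let U : Fin D.w → MvPolynomial (Fin 2 ⊕ (D.κB ⊕ (Fin D.w ⊕ (Fin 4 ⊕ Fin D.w)))) ℂ := fun i =>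
    X (Sum.inr (Sum.inr (Sum.inl i)))
  let W : Fin D.w → MvPolynomial (Fin 2 ⊕ (D.κB ⊕ (Fin D.w ⊕ (Fin 4 ⊕ Fin D.w)))) ℂ := fun i =>
    X (Sum.inr (Sum.inr (Sum.inr (Sum.inr i))))
  let h : Fin 2 ⊕ (Fin D.w ⊕ Fin D.w) →
      MvPolynomial (Fin 2 ⊕ (D.κB ⊕ (Fin D.w ⊕ (Fin 4 ⊕ Fin D.w)))) ℂ :=
    Sum.elim ![S, R] (Sum.elim U W)
  let xo : Option (Fin D.w) →
      MvPolynomial (Fin 2 ⊕ (D.κB ⊕ (Fin D.w ⊕ (Fin 4 ⊕ Fin D.w)))) ℂ := fun o =>
    Option.rec S (fun i => S * U i + R * W i) o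
  let g : D.κB ⊕ (Option (Fin D.w) × D.ν) →
      MvPolynomial (Fin 2 ⊕ (D.κB ⊕ (Fin D.w ⊕ (Fin 4 ⊕ Fin D.w)))) ℂ :=
    Sum.elim (fun β => X (Sum.inr (Sum.inl β))) (fun o => xo o.1 * aeval h (G o.2))
  choose Ψ hΨ using fun i => par_ext (aeval g (D.E i)) D.dg
  refine ⟨fun ij => Ψ ij.1 ij.2, fun b u σ z hz s t => ?_⟩
  -- evaluation
  have evS : ∀ s t : ℂ, eval (Sum.elim ![s, t] (Sum.elim b (Sum.elim u (Sum.elim σ z)))) S =
      s * σ 0 + t * σ 1 := by
    intro s t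
    simp [S]
  have evR : ∀ s t : ℂ, eval (Sum.elim ![s, t] (Sum.elim b (Sum.elim u (Sum.elim σ z)))) R =
      s * σ 2 + t * σ 3 := by
    intro s t
    simp [R]
  have evh : ∀ s t : ℂ, ev h (Sum.elim ![s, t] (Sum.elim b (Sum.elim u (Sum.elim σ z)))) =
      Sum.elim ![s * σ 0 + t * σ 1, s * σ 2 + t * σ 3] (Sum.elim u z) := by
    intro s t
    funext o
    rcases o with i | i | i
    · fin_cases i
      · exact evS s t
      · exact evR s t
    · simp [ev, h, U]
    · simp [ev, h, W]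
  let xt : ℂ → ℂ → Option (Fin D.w) → ℂ := fun s t => ov (s * σ 0 + t * σ 1)
    ((s * σ 0 + t * σ 1) • u + (s * σ 2 + t * σ 3) • z)
  let Gt : ℂ → ℂ → D.ν → ℂ := fun s t j =>
    eval (Sum.elim ![s * σ 0 + t * σ 1, s * σ 2 + t * σ 3] (Sum.elim u z)) (G j)
  have evg : ∀ s t : ℂ, ev g (Sum.elim ![s, t] (Sum.elim b (Sum.elim u (Sum.elim σ z)))) =
      Sum.elim b (seg (xt s t) (Gt s t)) := by
    intro s t
    funext o
    rcases o with i | ⟨o, j⟩
    · simp [ev, g]
    · simp only [ev, g, Sum.elim_inr, map_mul, seg]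
      rw [eval_aeval, evh]
      congr 1
      cases o with
      | none => exact evS s t
      | some i =>
        simp only [xo, xt, map_add, map_mul, evS, evR, ov_some, Pi.add_apply, Pi.smul_apply,
          smul_eq_mul]
        simp [U, W]
  have hx : ∀ s t : ℂ, s • ov (σ 0) (σ 0 • u + σ 2 • z) + t • ov (σ 1) (σ 1 • u + σ 3 • z) =
      xt s t := by
    intro s t
    funext o
    cases o with
    | none => simp [xt]
    | some i =>
      simp only [xt, Pi.add_apply, Pi.smul_apply, smul_eq_mul, ov_some]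
      ring
  have hF0 : ∀ j, eval (ov 0 z) (D.F j) = 0 :=
    (hD.fd.zero (ov 0 z)).2 ⟨rfl, by simpa using hz⟩
  have hFx : ∀ s t : ℂ, ev D.F (xt s t) = (s * σ 0 + t * σ 1) • Gt s t := by
    intro s t
    funext j
    simp only [ev, xt, Pi.smul_apply, smul_eq_mul, Gt]
    rw [hG, hF0, mul_zero, zero_add]
  have key : ∀ s t : ℂ, ev2 D.E b (D.gr (xt s t)) =
      (s * σ 0 + t * σ 1) ^ D.k • ev2 D.E b (seg (xt s t) (Gt s t)) := by
    intro s t
    rw [VD.gr, hFx, seg_smul_right, ev2_smul_right hD.xd.hom]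
  have hQ : ∀ (i : Fin (D.N + 1)) (s t : ℂ),
      eval (Sum.elim ![s, t] (Sum.elim b (Sum.elim u (Sum.elim σ z)))) (aeval g (D.E i)) =
      ev2 D.E b (seg (xt s t) (Gt s t)) i := by
    intro i s t
    rw [eval_aeval, evg]
    rfl
  rw [hx, key]
  by_cases hσ : σ 0 ≠ 0 ∨ σ 1 ≠ 0
  · congr 1
    funext i
    have hhom : ∀ c s t : ℂ, eval (Sum.elim ![c * s, c * t] (Sum.elim b
        (Sum.elim u (Sum.elim σ z)))) (aeval g (D.E i)) = c ^ D.dg *
        eval (Sum.elim ![s, t] (Sum.elim b (Sum.elim u (Sum.elim σ z)))) (aeval g (D.E i)) := by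
      refine par_hom (aeval g (D.E i)) D.dg D.k (D.k * (D.a + 1)) _ (σ 0) (σ 1) hσ
        (by rw [VD.dg]; ring) ?_
      intro c s t
      rw [hQ, hQ]
      have k1 := congrFun (key (c * s) (c * t)) i
      have k2 := congrFun (key s t) i
      rw [Pi.smul_apply, smul_eq_mul] at k1 k2
      rw [← k1, ← k2]
      have hxc : xt (c * s) (c * t) = c • xt s t := by
        rw [← hx, ← hx, smul_add, smul_smul, smul_smul]
      have hgc : D.gr (c • xt s t) = c ^ (D.a + 1) • D.gr (xt s t) := by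
        have h1 : ev D.F (c • xt s t) = c ^ D.a • ev D.F (xt s t) := by
          funext j
          exact hD.fd.hom j c _
        rw [VD.gr, VD.gr, h1, seg_smul_smul, pow_succ, mul_comm]
      rw [hxc, hgc, ev2_smul_right hD.xd.hom, Pi.smul_apply, smul_eq_mul, ← pow_mul, mul_comm
        (D.a + 1)]
    have h2 := hΨ i _ hhom s t
    rw [hQ] at h2
    rw [h2]
    rfl
  · rw [not_or, not_not, not_not] at hσ
    rw [hσ.1, hσ.2, mul_zero, mul_zero, add_zero, zero_pow (by have := hD.kpos; omega), zero_smul,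
      zero_smul]

end Pool.Agent.Helper87.VM
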